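import Mathlib

namespace Pool.Agent.MP_927be3_nt

/-- The arithmetic `k`-sphere of radius `r` in `d` dimensions. -/
def S (k d : ℕ) (r : ℝ) : Set (Fin d → ℤ) := {m | ∑ i, |(m i : ℝ)| ^ k = r ^ k}

/-- The order-of-magnitude count `N(r) ≍ r ^ (d - k)` holds in dimension `d`. -/
def Holds (k d : ℕ) : Prop :=
  ∃ c C r₀ : ℝ, 0 < c ∧ c ≤ C ∧ ∀ r : ℝ, 0 < r → (S k d r).Nonempty → r₀ ≤ r →
    c * r ^ ((d : ℤ) - k) ≤ (S k d r).ncard ∧ ((S k d r).ncard : ℝ) ≤ C * r ^ ((d : ℤ) - k)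

end Pool.Agent.MP_927be3_nt
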