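import Mathlib

namespace Pool.Agent.MP_927be3_nt

open Finset

/-- number of zeros of the diagonal form over a finite ring -/
noncomputable def rho (k d : ℕ) (R : Type) [CommRing R] : ℕ :=
  Nat.card {x : Fin d → R // ∑ i, x i ^ k = 0}

theorem rho_eq (k d : ℕ) (R : Type) [CommRing R] [Fintype R] [DecidableEq R] :
    rho k d R = (Finset.univ.filter fun x : Fin d → R => ∑ i, x i ^ k = 0).card := by
  rw [rho, Nat.card_eq_fintype_card, Fintype.card_subtype]

theorem rho_mul (k d : ℕ) {a b : ℕ} (h : a.Coprime b) :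
    rho k d (ZMod (a * b)) = rho k d (ZMod a) * rho k d (ZMod b) := by
  unfold rho
  rw [← Nat.card_prod]
  let e := ZMod.chineseRemainder h
  refine Nat.card_congr
    { toFun := fun x => (⟨fun i => (e (x.1 i)).1, ?_⟩, ⟨fun i => (e (x.1 i)).2, ?_⟩)
      invFun := fun y => ⟨fun i => e.symm (y.1.1 i, y.2.1 i), ?_⟩
      left_inv := fun x => by ext i; simp
      right_inv := fun y => by ext i <;> simp }
  · have := congrArg (fun z => (e z).1) x.2
    simpa [map_sum, Prod.fst_sum] using this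
  · have := congrArg (fun z => (e z).2) x.2
    simpa [map_sum, Prod.snd_sum] using this
  · apply e.injective
    rw [map_sum, map_zero]
    simp only [map_pow, RingEquiv.apply_symm_apply]
    ext
    · simpa [Prod.fst_sum] using y.1.2
    · simpa [Prod.snd_sum] using y.2.2

section prime
variable {p : ℕ} [hp : Fact p.Prime]

/-- the complete exponential sum -/
noncomputable def ES (k : ℕ) (t : ZMod p) : ℂ := ∑ x : ZMod p, ZMod.stdAddChar (t * x ^ k)

theorem addChar_sum {ι : Type} (s : Finset ι) (f : ι → ZMod p) :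
    ZMod.stdAddChar (∑ i ∈ s, f i) = ∏ i ∈ s, ZMod.stdAddChar (f i) := by
  classical
  induction s using Finset.induction_on with
  | empty => simp
  | insert a s ha ih => rw [Finset.sum_insert ha, Finset.prod_insert ha, AddChar.map_add_eq_mul, ih]

theorem orth (b : ZMod p) :
    ∑ t : ZMod p, ZMod.stdAddChar (t * b) = if b = 0 then (p : ℂ) else 0 := by
  rw [AddChar.sum_mulShift _ (ZMod.isPrimitive_stdAddChar p)]
  simp

theorem rho_formula (k d : ℕ) : (p : ℂ) * rho k d (ZMod p) = ∑ t : ZMod p, ES k t ^ d := by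
  have h1 : ∀ t : ZMod p, ES k t ^ d
      = ∑ x : Fin d → ZMod p, ZMod.stdAddChar (t * ∑ i, x i ^ k) := by
    intro t
    rw [ES, ← Fin.prod_const, Fintype.prod_sum]
    refine Finset.sum_congr rfl fun x _ => ?_
    rw [Finset.mul_sum, addChar_sum]
  simp only [h1]
  rw [Finset.sum_comm]
  simp only [orth]
  rw [rho_eq, Finset.card_filter]
  push_cast
  rw [Finset.mul_sum]
  exact Finset.sum_congr rfl fun x _ => by split_ifs <;> simp

theorem conj_ES (k : ℕ) (t : ZMod p) :
    (starRingEnd ℂ) (ES k t) = ∑ x : ZMod p, ZMod.stdAddChar (-(t * x ^ k)) := by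
  rw [ES, map_sum]
  exact Finset.sum_congr rfl fun x _ => (AddChar.map_neg_eq_conj _ _).symm

theorem card_roots_le {k : ℕ} (hk : 0 < k) (a : ZMod p) :
    (Finset.univ.filter fun y : ZMod p => y ^ k = a).card ≤ k := by
  refine le_trans (Finset.card_le_card (t := (Polynomial.nthRoots k a).toFinset) fun y hy => ?_)
    ((Multiset.toFinset_card_le _).trans (Polynomial.card_nthRoots k a))
  rw [Multiset.mem_toFinset, Polynomial.mem_nthRoots hk]
  exact (Finset.mem_filter.1 hy).2

theorem sum_sq_ES {k : ℕ} (hk : 0 < k) : ∑ t : ZMod p, ‖ES k t‖ ^ 2 ≤ k * (p : ℝ) ^ 2 := by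
  have h1 : ((∑ t : ZMod p, ‖ES k t‖ ^ 2 : ℝ) : ℂ)
      = ∑ x : ZMod p, ∑ y : ZMod p, if x ^ k - y ^ k = 0 then (p : ℂ) else 0 := by
    push_cast
    have : ∀ t : ZMod p, ((‖ES k t‖ : ℝ) : ℂ) ^ 2
        = ∑ x : ZMod p, ∑ y : ZMod p, ZMod.stdAddChar (t * (x ^ k - y ^ k)) := by
      intro t
      rw [← Complex.mul_conj', conj_ES, ES, Finset.sum_mul_sum]
      refine Finset.sum_congr rfl fun x _ => Finset.sum_congr rfl fun y _ => ?_
      rw [← AddChar.map_add_eq_mul]; congr 1; ring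
    simp only [this]
    rw [Finset.sum_comm]
    refine Finset.sum_congr rfl fun x _ => ?_
    rw [Finset.sum_comm]
    exact Finset.sum_congr rfl fun y _ => orth _
  have h2 : (∑ t : ZMod p, ‖ES k t‖ ^ 2 : ℝ)
      = ∑ x : ZMod p, ∑ y : ZMod p, if x ^ k - y ^ k = 0 then (p : ℝ) else 0 := by
    apply Complex.ofReal_injective
    rw [h1]
    push_cast
    refine Finset.sum_congr rfl fun x _ => Finset.sum_congr rfl fun y _ => ?_
    split_ifs <;> simp
  rw [h2]
  calc ∑ x : ZMod p, ∑ y : ZMod p, (if x ^ k - y ^ k = 0 then (p : ℝ) else 0)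
      ≤ ∑ _x : ZMod p, (k : ℝ) * p := by
        refine Finset.sum_le_sum fun x _ => ?_
        rw [← Finset.sum_filter, Finset.sum_const, nsmul_eq_mul]
        gcongr
        refine le_trans (le_of_eq ?_) (card_roots_le hk (x ^ k))
        congr 1
        ext y
        simp [sub_eq_zero, eq_comm]
    _ = _ := by simp; ring

theorem ES_mul_pow (k : ℕ) (t u : ZMod p) (hu : u ≠ 0) : ES k (t * u ^ k) = ES k t := by
  unfold ES
  refine Fintype.sum_equiv (Equiv.mulLeft₀ u hu) _ _ fun x => ?_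
  simp only [Equiv.mulLeft₀_apply]
  congr 1; ring

theorem ES_sq_le {k : ℕ} (hk : 0 < k) {t : ZMod p} (ht : t ≠ 0) :
    ‖ES k t‖ ^ 2 ≤ 2 * k ^ 2 * p := by
  have h1 : ∑ u ∈ Finset.univ.erase (0 : ZMod p), ‖ES k (t * u ^ k)‖ ^ 2
      = (p - 1 : ℝ) * ‖ES k t‖ ^ 2 := by
    rw [Finset.sum_congr rfl fun u hu => by rw [ES_mul_pow k t u (Finset.ne_of_mem_erase hu)]]
    rw [Finset.sum_const, Finset.card_erase_of_mem (Finset.mem_univ _), Finset.card_univ, ZMod.card,
      nsmul_eq_mul, Nat.cast_sub hp.out.one_le, Nat.cast_one]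
  have h2 : ∑ u ∈ Finset.univ.erase (0 : ZMod p), ‖ES k (t * u ^ k)‖ ^ 2
      ≤ k * ∑ s : ZMod p, ‖ES k s‖ ^ 2 := by
    rw [← Finset.sum_fiberwise_of_maps_to (t := Finset.univ) (g := fun u => t * u ^ k)
      (fun _ _ => Finset.mem_univ _), Finset.mul_sum]
    refine Finset.sum_le_sum fun s _ => ?_
    rw [Finset.sum_congr rfl fun u hu => by rw [(Finset.mem_filter.1 hu).2], Finset.sum_const,
      nsmul_eq_mul]
    gcongr
    refine le_trans (Finset.card_le_card fun u hu => ?_) (card_roots_le hk (s / t))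
    refine Finset.mem_filter.2 ⟨Finset.mem_univ _, ?_⟩
    rw [← (Finset.mem_filter.1 hu).2]; field_simp
  have h3 := sum_sq_ES (p := p) hk
  have h4 : (2 : ℝ) ≤ p := by exact_mod_cast hp.out.two_le
  have h5 : (p - 1 : ℝ) * ‖ES k t‖ ^ 2 ≤ k * (k * p ^ 2) := by
    rw [← h1]; exact h2.trans (by gcongr)
  have h6 : (p : ℝ) * ‖ES k t‖ ^ 2 ≤ p * (2 * k ^ 2 * p) := by
    nlinarith [sq_nonneg ‖ES k t‖]
  exact le_of_mul_le_mul_left h6 (by linarith)

theorem ES_le (k : ℕ) (t : ZMod p) : ‖ES k t‖ ≤ p := by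
  refine (norm_sum_le _ _).trans ?_
  simp

theorem ES_zero (k : ℕ) : ES k (0 : ZMod p) = p := by simp [ES]

theorem rho_split (k d : ℕ) : (p : ℝ) * rho k d (ZMod p)
    = p ^ d + (∑ t ∈ Finset.univ.erase (0 : ZMod p), ES k t ^ d).re := by
  have := congrArg Complex.re (rho_formula (p := p) k d)
  rw [← Finset.add_sum_erase _ _ (Finset.mem_univ 0), ES_zero, Complex.add_re] at this
  norm_cast at this ⊢

theorem rho_lower {k : ℕ} (hk : 0 < k) (j e : ℕ) {B : ℝ} (hB : 0 ≤ B)
    (hB2 : 2 * k ^ 2 * (p : ℝ) ≤ B ^ 2) :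
    (p : ℝ) ^ (2 + j + e) - B ^ j * p ^ e * (k * p ^ 2) ≤ p * rho k (2 + j + e) (ZMod p) := by
  rw [rho_split]
  have h1 : ‖∑ t ∈ Finset.univ.erase (0 : ZMod p), ES k t ^ (2 + j + e)‖
      ≤ B ^ j * p ^ e * (k * p ^ 2) := by
    refine (norm_sum_le _ _).trans ?_
    calc ∑ t ∈ Finset.univ.erase (0 : ZMod p), ‖ES k t ^ (2 + j + e)‖
        ≤ ∑ t ∈ Finset.univ.erase (0 : ZMod p), B ^ j * p ^ e * ‖ES k t‖ ^ 2 := by
          refine Finset.sum_le_sum fun t ht => ?_
          have h2 : ‖ES k t‖ ≤ B :=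
            pow_le_pow_left₀ hB le_rfl 1 |> fun _ => abs_le_of_sq_le_sq' 
              ((ES_sq_le hk (Finset.ne_of_mem_erase ht)).trans hB2) hB |>.2
          rw [norm_pow, pow_add, pow_add]
          have h3 := ES_le k t
          calc ‖ES k t‖ ^ 2 * ‖ES k t‖ ^ j * ‖ES k t‖ ^ e ≤ ‖ES k t‖ ^ 2 * B ^ j * p ^ e := by
                gcongr
            _ = _ := by ring
      _ ≤ ∑ t, B ^ j * p ^ e * ‖ES k t‖ ^ 2 :=
          Finset.sum_le_sum_of_subset_of_nonneg (Finset.subset_univ _) fun _ _ _ => by positivity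
      _ ≤ _ := by
          rw [← Finset.mul_sum]
          gcongr
          exact sum_sq_ES hk
  have h2 := (abs_le.1 ((Complex.abs_re_le_norm _).trans h1)).1
  linarith

theorem rho_three_four : (p : ℝ) ^ 4 ≤ p * rho 3 4 (ZMod p) := by
  rw [rho_split, Complex.re_sum]
  refine le_add_of_nonneg_right (Finset.sum_nonneg fun t _ => ?_)
  have h1 : (starRingEnd ℂ) (ES 3 t) = ES 3 t := by
    rw [conj_ES, ES]
    refine Fintype.sum_equiv (Equiv.neg _) _ _ fun x => ?_
    simp only [Equiv.neg_apply]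
    congr 1; ring
  have h2 : ES 3 t ^ 4 = ((‖ES 3 t‖ ^ 4 : ℝ) : ℂ) := by
    have := Complex.mul_conj' (ES 3 t)
    rw [h1] at this
    push_cast
    calc ES 3 t ^ 4 = (ES 3 t * ES 3 t) ^ 2 := by ring
      _ = _ := by rw [this]; ring
  rw [h2, Complex.ofReal_re]
  positivity

/-- reduction modulo `p` -/
def red (p j : ℕ) : ZMod (p ^ (j + 1)) →+* ZMod p :=
  ZMod.castHom (dvd_pow_self p (Nat.succ_ne_zero j)) (ZMod p)

instance (j : ℕ) : NeZero (p ^ (j + 1)) := ⟨pow_ne_zero _ hp.out.ne_zero⟩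

theorem red_eq_zero {j : ℕ} (z : ZMod (p ^ (j + 1))) : red p j z = 0 ↔ p ∣ z.val := by
  rw [← ZMod.natCast_eq_zero_iff, red, ZMod.castHom_apply, ZMod.natCast_val]

theorem isUnit_of_red {j : ℕ} {z : ZMod (p ^ (j + 1))} (h : red p j z ≠ 0) : IsUnit z := by
  rw [← ZMod.natCast_zmod_val z, ZMod.isUnit_iff_coprime]
  exact Nat.Coprime.pow_right _ ((Nat.Prime.coprime_iff_not_dvd hp.out).2
    fun h1 => h ((red_eq_zero z).2 h1)).symm

/-- fibre of the reduction -/
def Fib (j : ℕ) (b : ZMod p) : Finset (ZMod (p ^ (j + 1))) :=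
  Finset.univ.filter fun z => red p j z = b

theorem mem_Fib {j : ℕ} {b : ZMod p} {z : ZMod (p ^ (j + 1))} : z ∈ Fib j b ↔ red p j z = b := by
  simp [Fib]

theorem card_Fib (j : ℕ) (b : ZMod p) : (Fib j b).card = p ^ j := by
  have hs : Function.Surjective (red p j) := ZMod.castHom_surjective _
  have h1 : ∀ b : ZMod p, (Fib j b).card = (Fib j (0 : ZMod p)).card := by
    intro b
    obtain ⟨a, ha⟩ := hs b
    refine Finset.card_nbij' (fun z => z - a) (fun z => z + a) ?_ ?_ ?_ ?_
    · intro z hz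
      rw [Finset.mem_coe, mem_Fib] at hz ⊢
      rw [map_sub, hz, ha, sub_self]
    · intro z hz
      rw [Finset.mem_coe, mem_Fib] at hz ⊢
      rw [map_add, hz, ha, zero_add]
    · intro z _; simp
    · intro z _; simp
  have h2 := Finset.card_eq_sum_card_fiberwise (s := Finset.univ) (t := Finset.univ)
    (f := red p j) fun _ _ => Finset.mem_coe.2 (Finset.mem_univ _)
  change _ = ∑ b : ZMod p, (Fib j b).card at h2
  simp only [h1, Finset.card_univ, ZMod.card, Finset.sum_const, smul_eq_mul] at h2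
  rw [h1]
  exact (Nat.eq_of_mul_eq_mul_left hp.out.pos ((pow_succ' p j).symm.trans h2)).symm

theorem hensel {j k : ℕ} (hk : ¬ p ∣ k) {a : ZMod p} (ha : a ≠ 0) {c : ZMod (p ^ (j + 1))}
    (hc : red p j c = a ^ k) : ∃ z, red p j z = a ∧ z ^ k = c := by
  have := Finset.surjOn_of_injOn_of_card_le (s := Fib j a) (t := Fib j (a ^ k)) (fun z => z ^ k)
    (fun z hz => by
      rw [Finset.mem_coe, mem_Fib] at hz ⊢
      rw [map_pow, hz])
    (fun x hx y hy e => by
      rw [Finset.mem_coe, mem_Fib] at hx hy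
      have h1 := geom_sum₂_mul x y k
      simp only at e
      rw [e, sub_self] at h1
      have h2 : IsUnit (∑ i ∈ range k, x ^ i * y ^ (k - 1 - i)) := by
        refine isUnit_of_red ?_
        rw [map_sum]
        simp only [map_mul, map_pow, hx, hy]
        rw [geom_sum₂_self]
        exact mul_ne_zero (fun h => hk ((ZMod.natCast_eq_zero_iff _ _).1 h)) (pow_ne_zero _ ha)
      exact sub_eq_zero.1 (h2.mul_right_eq_zero.1 h1))
    (by rw [card_Fib, card_Fib])
  obtain ⟨z, hz, e⟩ := this (Finset.mem_coe.2 (mem_Fib.2 hc))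
  exact ⟨z, mem_Fib.1 (Finset.mem_coe.1 hz), e⟩

theorem rho_pow {j d : ℕ} (hk : ¬ p ∣ j + 1) :
    p ^ (j * d) * p ^ j + (rho (j + 1) d (ZMod p) - 1) * p ^ (j * d)
      ≤ rho (j + 1) d (ZMod (p ^ (j + 1))) * p ^ j := by
  classical
  rw [rho_eq, rho_eq]
  set A := Finset.univ.filter fun x : Fin d → ZMod (p ^ (j + 1)) => ∑ i, x i ^ (j + 1) = 0 with hA
  set B := Finset.univ.filter fun x : Fin d → ZMod p => ∑ i, x i ^ (j + 1) = 0 with hB
  have h0 : (0 : Fin d → ZMod p) ∈ B := by simp [hB]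
  have h1 := Finset.card_eq_sum_card_fiberwise (s := A) (t := B) (f := fun x i => red p j (x i))
    fun x hx => by
      rw [Finset.mem_coe, Finset.mem_filter] at hx ⊢
      refine ⟨Finset.mem_univ _, ?_⟩
      have := congrArg (red p j) hx.2
      simpa [map_sum] using this
  have hbox : ∀ y : Fin d → ZMod p, (Fintype.piFinset fun i => Fib j (y i)).card = p ^ (j * d) := by
    intro y
    simp [Fintype.card_piFinset, card_Fib, pow_mul]
  rw [h1, ← Finset.add_sum_erase _ _ h0, add_mul, Finset.sum_mul]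
  refine add_le_add (Nat.mul_le_mul_right _ ?_) ?_
  · rw [← hbox 0]
    refine Finset.card_le_card fun x hx => ?_
    rw [Fintype.mem_piFinset] at hx
    refine Finset.mem_filter.2 ⟨Finset.mem_filter.2 ⟨Finset.mem_univ _, ?_⟩,
      funext fun i => mem_Fib.1 (hx i)⟩
    refine Finset.sum_eq_zero fun i _ => ?_
    obtain ⟨c, hc⟩ := (red_eq_zero (x i)).1 (mem_Fib.1 (hx i))
    rw [← ZMod.natCast_zmod_val (x i), hc, ← Nat.cast_pow, mul_pow, Nat.cast_mul,
      ZMod.natCast_self, zero_mul]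
  · rw [← Finset.card_erase_of_mem h0, ← smul_eq_mul, ← Finset.sum_const]
    refine Finset.sum_le_sum fun y hy => ?_
    obtain ⟨i0, hi0⟩ : ∃ i0, y i0 ≠ 0 := Function.ne_iff.1 (Finset.ne_of_mem_erase hy)
    have hy2 := (Finset.mem_filter.1 (Finset.mem_of_mem_erase hy)).2
    have hroot : ∀ x ∈ Fintype.piFinset fun i => Fib j (y i), ∃ z, red p j z = y i0 ∧
        z ^ (j + 1) = -∑ i ∈ Finset.univ.erase i0, x i ^ (j + 1) := by
      intro x hx
      rw [Fintype.mem_piFinset] at hx
      refine hensel hk hi0 ?_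
      rw [map_neg, map_sum]
      simp only [map_pow, fun i => mem_Fib.1 (hx i)]
      rw [← Finset.add_sum_erase _ _ (Finset.mem_univ i0)] at hy2
      linear_combination -hy2
    choose! z hz1 hz2 using hroot
    rw [← hbox y, ← card_Fib j (y i0), ← Finset.card_product]
    refine Finset.card_le_card_of_injOn (fun x => (Function.update x i0 (z x), x i0))
      (fun x hx => ?_) (fun x _ x' _ e => ?_)
    · rw [Finset.mem_coe] at hx
      have hx' := Fintype.mem_piFinset.1 hx
      rw [Finset.mem_coe, Finset.mem_product]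
      refine ⟨Finset.mem_filter.2 ⟨Finset.mem_filter.2 ⟨Finset.mem_univ _, ?_⟩, funext fun i => ?_⟩,
        hx' i0⟩
      · dsimp only
        have h9 : ∑ i ∈ Finset.univ.erase i0, Function.update x i0 (z x) i ^ (j + 1)
            = ∑ i ∈ Finset.univ.erase i0, x i ^ (j + 1) := Finset.sum_congr rfl fun i hi => by
          rw [Function.update_of_ne (Finset.ne_of_mem_erase hi)]
        rw [← Finset.add_sum_erase _ _ (Finset.mem_univ i0), Function.update_self, hz2 x hx, h9]
        simp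
      · by_cases hi : i = i0
        · subst hi; simp [hz1 x hx]
        · simp [Function.update_of_ne hi, mem_Fib.1 (hx' i)]
    · funext i
      by_cases hi : i = i0
      · subst hi; exact congrArg Prod.snd e
      · have := congrFun (congrArg Prod.fst e) i
        simpa [Function.update_of_ne hi] using this

end prime

end Pool.Agent.MP_927be3_nt
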