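import Pool.Agent.MP_927be3_nt.Defs
import Pool.Agent.MP_927be3_nt.Local

namespace Pool.Agent.MP_927be3_nt

open Finset

theorem sigma_ge {p : ℕ} [hp : Fact p.Prime] {k d : ℕ} (hk : 3 ≤ k) (hd : d = k ∨ d = k + 1)
    (hp0 : 128 * k ^ 8 ≤ p) :
    (1 + 1 / (2 * p) : ℝ) * ((p : ℝ) ^ k) ^ (d - 1) ≤ rho k d (ZMod (p ^ k)) := by
  obtain ⟨j, rfl⟩ : ∃ j, k = j + 1 := ⟨k - 1, by omega⟩
  have hK : (3 : ℝ) ≤ (j + 1 : ℕ) := by exact_mod_cast hk
  have hP : 128 * ((j + 1 : ℕ) : ℝ) ^ 8 ≤ p := by exact_mod_cast hp0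
  have hkp : j + 1 < p := by
    have : (j + 1) ≤ (j + 1) ^ 8 := Nat.le_self_pow (by omega) _
    omega
  have h1 := rho_pow (p := p) (j := j) (d := d) (Nat.not_dvd_of_pos_of_lt (by omega) hkp)
  have hρ : 1 ≤ rho (j + 1) d (ZMod p) := by
    rw [rho_eq]
    exact Finset.card_pos.2 ⟨0, by simp⟩
  have h2 : (p : ℝ) ^ (j * d) * p ^ j + ((rho (j + 1) d (ZMod p) : ℝ) - 1) * p ^ (j * d)
      ≤ rho (j + 1) d (ZMod (p ^ (j + 1))) * p ^ j := by
    have : ((p ^ (j * d) * p ^ j + (rho (j + 1) d (ZMod p) - 1) * p ^ (j * d) : ℕ) : ℝ)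
      ≤ (rho (j + 1) d (ZMod (p ^ (j + 1))) * p ^ j : ℕ) := by exact_mod_cast h1
    push_cast [Nat.cast_sub hρ] at this
    exact this
  set K : ℝ := ((j + 1 : ℕ) : ℝ) with hKdef
  set P : ℝ := (p : ℝ) with hPdef
  have hK8 : 6561 ≤ K ^ 8 := by
    calc (6561 : ℝ) = 3 ^ 8 := by norm_num
      _ ≤ _ := by gcongr
  have hP4 : 4 ≤ P := by linarith
  have hP0 : 0 < P := by linarith
  set B : ℝ := √(2 * K ^ 2 * P) with hB
  have hB0 : 0 ≤ B := Real.sqrt_nonneg _
  have hB2 : B ^ 2 = 2 * K ^ 2 * P := Real.sq_sqrt (by positivity)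
  have hB3 : 8 * K ^ 3 * B ≤ P := by
    refine abs_le_of_sq_le_sq' ?_ hP0.le |>.2
    rw [mul_pow, hB2]
    nlinarith
  have h3 : (1 + 1 / (2 * P)) * P ^ (d - 1) ≤ P ^ j + rho (j + 1) d (ZMod p) - 1 := by
    rcases hd with rfl | rfl
    · obtain ⟨e, rfl⟩ : ∃ e, j = e + 2 := ⟨j - 2, by omega⟩
      have h4 := rho_lower (p := p) (k := e + 2 + 1) (by omega) 1 e hB0 hB2.ge
      rw [show 2 + 1 + e = e + 2 + 1 by ring] at h4
      rw [show e + 2 + 1 - 1 = e + 2 by omega]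
      rw [← hKdef, ← hPdef] at h4
      have hQ : 1 ≤ P ^ e := one_le_pow₀ (by linarith)
      have h5 : K * B ≤ P / 8 := by
        have h10 : 0 ≤ K * B := mul_nonneg (by linarith) hB0
        have h11 : 1 ≤ K ^ 2 := by nlinarith
        have h12 : K * B * 1 ≤ K * B * K ^ 2 := mul_le_mul_of_nonneg_left h11 h10
        nlinarith
      have h6 : P * (P ^ (e + 2) - P ^ (e + 2) / 8) ≤ P * rho (e + 2 + 1) (e + 2 + 1) (ZMod p) := by
        refine le_trans ?_ h4
        have : B ^ 1 * P ^ e * (K * P ^ 2) = (K * B) * P ^ (e + 2) := by ring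
        rw [this]
        have h7 : (K * B) * P ^ (e + 2) ≤ P / 8 * P ^ (e + 2) := by gcongr
        have : P ^ (e + 2 + 1) = P * P ^ (e + 2) := by ring
        nlinarith
      have h7 := le_of_mul_le_mul_left h6 hP0
      have h8 : 1 / (2 * P) ≤ 1 / 8 := by gcongr; linarith
      have h9 : 16 ≤ P ^ (e + 2) := by rw [pow_add]; nlinarith
      nlinarith
    · have hA : (1 + 1 / (2 * P)) * P ^ (j + 1 + 1 - 1) = P ^ (j + 1) + P ^ j / 2 := by
        rw [show j + 1 + 1 - 1 = j + 1 by omega]; field_simp; ring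
      rw [hA]
      by_cases hj : j = 2
      · subst hj
        have h4 := rho_three_four (p := p)
        rw [← hPdef] at h4
        have h6 : P * P ^ 3 ≤ P * rho 3 4 (ZMod p) := by nlinarith
        have h7 := le_of_mul_le_mul_left h6 hP0
        norm_num
        nlinarith
      · obtain ⟨e, rfl⟩ : ∃ e, j = e + 3 := ⟨j - 3, by omega⟩
        have h4 := rho_lower (p := p) (k := e + 3 + 1) (by omega) 3 e hB0 hB2.ge
        rw [show 2 + 3 + e = e + 3 + 1 + 1 by ring] at h4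
        rw [← hKdef, ← hPdef] at h4
        have hQ : 1 ≤ P ^ e := one_le_pow₀ (by linarith)
        have h6 : P * (P ^ (e + 3 + 1) - P ^ (e + 3) / 4)
            ≤ P * rho (e + 3 + 1) (e + 3 + 1 + 1) (ZMod p) := by
          refine le_trans ?_ h4
          have : B ^ 3 * P ^ e * (K * P ^ 2) = (8 * K ^ 3 * B) * (P ^ (e + 3) / 4) := by
            rw [show B ^ 3 = B ^ 2 * B by ring, hB2]; ring
          rw [this]
          have h7 : (8 * K ^ 3 * B) * (P ^ (e + 3) / 4) ≤ P * (P ^ (e + 3) / 4) := by gcongr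
          have : P ^ (e + 3 + 1 + 1) = P * P ^ (e + 3 + 1) := by ring
          nlinarith
        have h7 := le_of_mul_le_mul_left h6 hP0
        have h9 : 4 ≤ P ^ (e + 3) := by
          have : P ^ (e + 3) = P ^ e * P * P * P := by ring
          have h10 : 4 ≤ P ^ e * P := by nlinarith
          have h11 : 4 ≤ P ^ e * P * P := by nlinarith
          nlinarith
        linarith
  have hd1 : 1 ≤ d := by omega
  have e1 : (P ^ (j + 1)) ^ (d - 1) * P ^ j = P ^ (j * d) * P ^ (d - 1) := by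
    obtain ⟨d', rfl⟩ : ∃ d', d = d' + 1 := ⟨d - 1, by omega⟩
    rw [← pow_mul, ← pow_add, ← pow_add]; congr 1; simp; ring
  refine le_of_mul_le_mul_right ?_ (pow_pos hP0 j)
  refine le_trans ?_ h2
  rw [mul_assoc, e1]
  have h5 := mul_le_mul_of_nonneg_left h3 (pow_pos hP0 (j * d)).le
  nlinarith

theorem rho_prod {k d : ℕ} (hk : 3 ≤ k) (hd : d = k ∨ d = k + 1) (P : Finset ℕ)
    (hP : ∀ p ∈ P, p.Prime ∧ 128 * k ^ 8 ≤ p) :
    (1 + ∑ p ∈ P, (1 / (2 * p) : ℝ)) * ((∏ p ∈ P, p ^ k : ℕ) : ℝ) ^ (d - 1)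
      ≤ rho k d (ZMod (∏ p ∈ P, p ^ k)) := by
  induction P using Finset.induction_on with
  | empty =>
    rw [Finset.prod_empty, rho_eq]
    have : 1 ≤ (Finset.univ.filter fun x : Fin d → ZMod 1 => ∑ i, x i ^ k = 0).card :=
      Finset.card_pos.2 ⟨0, Finset.mem_filter.2 ⟨Finset.mem_univ _, Subsingleton.elim _ _⟩⟩
    simpa using this
  | insert p P hp ih =>
    have h1 := ih fun q hq => hP q (Finset.mem_insert_of_mem hq)
    obtain ⟨h2, h3⟩ := hP p (Finset.mem_insert_self _ _)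
    have : Fact p.Prime := ⟨h2⟩
    have h4 := sigma_ge (p := p) hk hd h3
    have h5 : (p ^ k).Coprime (∏ q ∈ P, q ^ k) := by
      refine Nat.Coprime.prod_right fun q hq => Nat.Coprime.pow _ _ ?_
      exact (Nat.coprime_primes h2 (hP q (Finset.mem_insert_of_mem hq)).1).2
        fun e => hp (e ▸ hq)
    rw [Finset.prod_insert hp, Finset.sum_insert hp, rho_mul k d h5, Nat.cast_mul, Nat.cast_mul,
      mul_pow, Nat.cast_pow]
    have h6 : (0 : ℝ) ≤ ∑ q ∈ P, (1 / (2 * q) : ℝ) := Finset.sum_nonneg fun _ _ => by positivity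
    have h7 : (0 : ℝ) ≤ 1 / (2 * p) := by positivity
    refine le_trans ?_ (mul_le_mul h4 h1 (by positivity) (by positivity))
    have h8 : (0 : ℝ) ≤ ((p : ℝ) ^ k) ^ (d - 1) * ((∏ p ∈ P, p ^ k : ℕ) : ℝ) ^ (d - 1) := by
      positivity
    nlinarith [mul_nonneg (mul_nonneg h6 h7) h8]

theorem rho_unbounded {k d : ℕ} (hk : 3 ≤ k) (hd : d = k ∨ d = k + 1) (M : ℝ) (q0 : ℕ) :
    ∃ q : ℕ, q0 < q ∧ M * (q : ℝ) ^ (d - 1) < rho k d (ZMod q) := by
  set p0 := 128 * k ^ 8 + q0 + 1 with hp0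
  set f : ℕ → ℝ := Set.indicator {p | p.Prime} (fun n : ℕ ↦ (1 : ℝ) / n) with hf
  have hf0 : ∀ n, 0 ≤ f n := fun n => Set.indicator_nonneg (fun _ _ => by positivity) _
  have h1 := (not_summable_iff_tendsto_nat_atTop_of_nonneg hf0).1 not_summable_one_div_on_primes
  obtain ⟨n, hn⟩ := (h1.eventually_gt_atTop (∑ i ∈ range p0, f i + 2 * |M|)).exists
  set P := (range n).filter fun p => p.Prime ∧ p0 ≤ p with hP
  have h2 : ∑ i ∈ range n, f i ≤ ∑ i ∈ range p0, f i + ∑ p ∈ P, (1 / p : ℝ) := by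
    rw [← Finset.sum_filter_add_sum_filter_not (range n) (fun i => i < p0)]
    refine add_le_add (Finset.sum_le_sum_of_subset_of_nonneg (fun i hi => ?_) fun i _ _ => hf0 i) ?_
    · exact Finset.mem_range.2 (Finset.mem_filter.1 hi).2
    · rw [hP, Finset.sum_filter, Finset.sum_filter]
      refine Finset.sum_le_sum fun i _ => ?_
      by_cases h3 : i.Prime <;> by_cases h4 : i < p0 <;>
        simp [hf, h3, h4, not_lt.1, not_le.2]
  have h3 : ∑ p ∈ P, (1 / (2 * p) : ℝ) = (∑ p ∈ P, (1 / p : ℝ)) / 2 := by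
    rw [Finset.sum_div]; exact Finset.sum_congr rfl fun p _ => by ring
  have h4 : |M| < ∑ p ∈ P, (1 / (2 * p) : ℝ) := by linarith
  have hPm : ∀ p ∈ P, p.Prime ∧ p0 ≤ p := fun p hp => (Finset.mem_filter.1 hp).2
  have hne : P.Nonempty := by
    by_contra hc
    rw [Finset.not_nonempty_iff_eq_empty.1 hc, Finset.sum_empty] at h4
    exact absurd (abs_nonneg M) (not_le.2 h4)
  have hpos : 0 < ∏ p ∈ P, p ^ k := Finset.prod_pos fun p hp => pow_pos (hPm p hp).1.pos _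
  refine ⟨∏ p ∈ P, p ^ k, ?_, ?_⟩
  · obtain ⟨p, hp⟩ := hne
    have h5 : p ^ k ≤ ∏ p ∈ P, p ^ k := Nat.le_of_dvd hpos (Finset.dvd_prod_of_mem _ hp)
    have h6 : p ≤ p ^ k := Nat.le_self_pow (by omega) p
    have := (hPm p hp).2
    omega
  · refine lt_of_lt_of_le ?_ (rho_prod hk hd P fun p hp => ⟨(hPm p hp).1, by
      have := (hPm p hp).2; omega⟩)
    have h5 : (0 : ℝ) < ((∏ p ∈ P, p ^ k : ℕ) : ℝ) ^ (d - 1) := by positivity
    have := le_abs_self M
    gcongr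
    linarith

theorem S_finite {k : ℕ} (hk : 1 ≤ k) (d : ℕ) (r : ℝ) : (S k d r).Finite := by
  refine (Set.Finite.pi' fun _ : Fin d => Set.finite_Icc (-⌈|r|⌉) ⌈|r|⌉).subset fun m hm i => ?_
  have h1 : |(m i : ℝ)| ^ k ≤ |r| ^ k := by
    rw [← abs_pow r]
    refine le_trans ?_ (le_abs_self _)
    rw [← show _ = r ^ k from hm]
    exact Finset.single_le_sum (f := fun i => |(m i : ℝ)| ^ k) (fun _ _ => by positivity)
      (Finset.mem_univ i)
  have h2 : |(m i : ℝ)| ≤ |r| := (pow_le_pow_iff_left₀ (abs_nonneg _) (abs_nonneg _)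
    (by omega)).1 h1
  have h3 : |m i| ≤ ⌈|r|⌉ := by
    have := h2.trans (Int.le_ceil _)
    exact_mod_cast this
  exact Set.mem_Icc.2 (abs_le.1 h3)

theorem single_mem {k d : ℕ} (hk : 1 ≤ k) (hd : 1 ≤ d) (n : ℕ) :
    (Pi.single ⟨0, hd⟩ (n : ℤ) : Fin d → ℤ) ∈ S k d n := by
  change ∑ i, _ = _
  rw [Finset.sum_eq_single ⟨0, hd⟩]
  · simp
  · intro i _ hi
    simp [Pi.single_eq_of_ne hi, show k ≠ 0 by omega]
  · simp

theorem not_holds_lt {k d : ℕ} (hd : 1 ≤ d) (h : d < k) : ¬ Holds k d := by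
  rintro ⟨c, C, r0, hc, hC, H⟩
  obtain ⟨n, hn⟩ := exists_nat_gt (max (max r0 C) 1)
  have h1 : r0 < n := (le_max_left _ _).trans (le_max_left _ _) |>.trans_lt hn
  have h2 : C < n := (le_max_right _ _).trans (le_max_left _ _) |>.trans_lt hn
  have h3 : (1 : ℝ) < n := (le_max_right _ _).trans_lt hn
  have hne : (S k d n).Nonempty := ⟨_, single_mem (by omega) hd n⟩
  have h4 := (H n (by linarith) hne h1.le).2
  have h5 : (1 : ℝ) ≤ (S k d n).ncard := by
    exact_mod_cast (Set.ncard_pos (S_finite (by omega) d n)).2 hne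
  have h6 : (n : ℝ) ^ ((d : ℤ) - k) ≤ (n : ℝ) ^ (-1 : ℤ) :=
    zpow_le_zpow_right₀ h3.le (by omega)
  rw [zpow_neg_one] at h6
  have h7 : C * (n : ℝ) ^ ((d : ℤ) - k) ≤ C * (n : ℝ)⁻¹ := by gcongr; linarith
  have h8 : C * (n : ℝ)⁻¹ < 1 := by rw [← div_eq_mul_inv, div_lt_one (by linarith)]; exact h2
  linarith

theorem not_holds_mid {k d : ℕ} (hk : 3 ≤ k) (hd : d = k ∨ d = k + 1) : ¬ Holds k d := by
  classical
  rintro ⟨c, C, r0, hc, hC, H⟩
  obtain ⟨e, he⟩ : ∃ e, d = k + e := ⟨d - k, by omega⟩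
  have hk0 : k ≠ 0 := by omega
  have hk1 : 1 ≤ k := by omega
  obtain ⟨q, hq, hq2⟩ := rho_unbounded hk hd ((d * 2 ^ k + 1) * (C * (2 * d) ^ e)) ⌈r0⌉₊
  have hq0 : 0 < q := by omega
  have : NeZero q := ⟨hq0.ne'⟩
  have hq1 : (1 : ℝ) ≤ q := by exact_mod_cast hq0
  have hr0 : r0 ≤ q := (Nat.le_ceil r0).trans (by exact_mod_cast hq.le)
  rw [rho_eq] at hq2
  set A := Finset.univ.filter fun x : Fin d → ZMod q => ∑ i, x i ^ k = 0 with hA
  set n : (Fin d → ZMod q) → ℕ := fun x => ∑ i, ((x i).val + q) ^ k with hn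
  set T := (range (d * 2 ^ k * q ^ (k - 1) + 1)).image fun j => q * j with hT
  have hnle : ∀ x, n x ≤ d * (2 * q) ^ k := by
    intro x
    calc n x ≤ ∑ _i : Fin d, (2 * q) ^ k := Finset.sum_le_sum fun i _ =>
          Nat.pow_le_pow_left (by have := (x i).val_lt; omega) _
      _ = _ := by simp
  have hnge : ∀ x, q ^ k ≤ n x := by
    intro x
    refine le_trans (Nat.pow_le_pow_left (Nat.le_add_left _ _) _)
      (Finset.single_le_sum (f := fun i => ((x i).val + q) ^ k) (fun _ _ => Nat.zero_le _)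
        (Finset.mem_univ ⟨0, by omega⟩))
  have hmaps : ∀ x ∈ A, n x ∈ T := by
    intro x hx
    have h1 : q ∣ n x := by
      rw [← ZMod.natCast_eq_zero_iff, hn]
      simpa using (Finset.mem_filter.1 hx).2
    obtain ⟨j, hj⟩ := h1
    refine Finset.mem_image.2 ⟨j, Finset.mem_range.2 (Nat.lt_succ_of_le ?_), hj.symm⟩
    have h2 := hnle x
    have h3 : d * (2 * q) ^ k = q * (d * 2 ^ k * q ^ (k - 1)) := by
      obtain ⟨k', rfl⟩ : ∃ k', k = k' + 1 := ⟨k - 1, by omega⟩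
      simp only [Nat.add_sub_cancel]; ring
    rw [hj, h3] at h2
    exact Nat.le_of_mul_le_mul_left h2 hq0
  have hfib : ∀ t, ((A.filter fun x => n x = t).card : ℝ) ≤ C * (2 * d * q) ^ e := by
    intro t
    rcases (A.filter fun x => n x = t).eq_empty_or_nonempty with h0 | ⟨x0, hx0⟩
    · rw [h0]; simp only [Finset.card_empty, Nat.cast_zero]
      have : 0 < C := by linarith
      positivity
    have ht : n x0 = t := (Finset.mem_filter.1 hx0).2
    set r : ℝ := (t : ℝ) ^ ((k : ℝ)⁻¹) with hr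
    have hrk : r ^ k = t := Real.rpow_inv_natCast_pow (Nat.cast_nonneg _) hk0
    have hr0' : 0 ≤ r := by positivity
    have hrq : (q : ℝ) ≤ r := by
      refine (pow_le_pow_iff_left₀ (by positivity) hr0' hk0).1 ?_
      rw [hrk, ← ht]; exact_mod_cast hnge x0
    have hr2 : r ≤ 2 * d * q := by
      refine (pow_le_pow_iff_left₀ hr0' (by positivity) hk0).1 ?_
      rw [hrk, ← ht]
      have h1 : d * (2 * q) ^ k ≤ (2 * d * q) ^ k := by
        rw [show 2 * d * q = d * (2 * q) by ring, mul_pow d]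
        exact Nat.mul_le_mul_right _ (Nat.le_self_pow hk0 d)
      exact_mod_cast (hnle x0).trans h1
    have hmem : ∀ x ∈ A.filter fun x => n x = t,
        (fun i => (((x i).val + q : ℕ) : ℤ)) ∈ S k d r := by
      intro x hx
      change ∑ i, _ = _
      rw [hrk, ← (Finset.mem_filter.1 hx).2, hn]
      push_cast
      exact Finset.sum_congr rfl fun i _ => by rw [abs_of_nonneg (by positivity)]
    have h1 := (H r (by linarith) ⟨_, hmem x0 hx0⟩ (by linarith)).2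
    have h2 := Set.ncard_le_ncard_of_injOn (s := ((A.filter fun x => n x = t : Finset _) : Set _))
      (fun x i => (((x i).val + q : ℕ) : ℤ)) hmem
      (fun x _ y _ e => funext fun i => ZMod.val_injective q (by
        have : (((x i).val + q : ℕ) : ℤ) = (((y i).val + q : ℕ) : ℤ) := congrFun e i
        have h9 : (x i).val + q = (y i).val + q := by exact_mod_cast this
        omega)) (S_finite hk1 d r)
    rw [Set.ncard_coe_finset] at h2
    rw [show (d : ℤ) - k = (e : ℕ) by omega, zpow_natCast] at h1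
    calc ((A.filter fun x => n x = t).card : ℝ) ≤ (S k d r).ncard := by exact_mod_cast h2
      _ ≤ C * r ^ e := h1
      _ ≤ _ := by gcongr; linarith
  have h1 : (A.card : ℝ) ≤ T.card * (C * (2 * d * q) ^ e) := by
    rw [Finset.card_eq_sum_card_fiberwise (f := n) (t := T) hmaps]
    push_cast
    refine (Finset.sum_le_sum fun t _ => hfib t).trans ?_
    simp
  have h2 : (T.card : ℝ) ≤ (d * 2 ^ k + 1) * q ^ (k - 1) := by
    have h3 : T.card ≤ d * 2 ^ k * q ^ (k - 1) + 1 := Finset.card_image_le.trans (by simp)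
    have h4 : (1 : ℝ) ≤ q ^ (k - 1) := one_le_pow₀ hq1
    have h5 : (T.card : ℝ) ≤ d * 2 ^ k * q ^ (k - 1) + 1 := by exact_mod_cast h3
    linarith
  have h3 : (q : ℝ) ^ (d - 1) = q ^ (k - 1) * q ^ e := by rw [← pow_add]; congr 1; omega
  have hC0 : 0 < C := by linarith
  have h4 : (T.card : ℝ) * (C * (2 * d * q) ^ e)
      ≤ (d * 2 ^ k + 1) * q ^ (k - 1) * (C * (2 * d * q) ^ e) := by gcongr
  rw [h3] at hq2
  rw [mul_pow] at h4 h1
  nlinarith

theorem not_holds_padic {k d p γ : ℕ} (hp : p.Prime) (hγ : γ ≤ k) (hk : 1 ≤ k)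
    (hu : ∀ x : ℤ, ¬ (p : ℤ) ∣ x → (p : ℤ) ^ γ ∣ x ^ k - 1) (h1 : k < d) (h2 : d < p ^ γ) :
    ¬ Holds k d := by
  classical
  rintro ⟨c, C, r0, hc, hC, H⟩
  have hp0 : (0 : ℝ) < p := by exact_mod_cast hp.pos
  have step : ∀ j : ℕ, (S k d ((p : ℝ) ^ (j + 1))).ncard ≤ (S k d ((p : ℝ) ^ j)).ncard := by
    intro j
    have hdiv : ∀ m ∈ S k d ((p : ℝ) ^ (j + 1)), ∀ i, (p : ℤ) ∣ m i := by
      intro m hm
      have h3 : ∑ i, |m i| ^ k = ((p : ℤ) ^ (j + 1)) ^ k := by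
        have : ∑ i, |(m i : ℝ)| ^ k = ((p : ℝ) ^ (j + 1)) ^ k := hm
        exact_mod_cast this
      have h4 : (p : ℤ) ^ γ ∣ ∑ i, (|m i| ^ k - if (p : ℤ) ∣ m i then 0 else 1) := by
        refine Finset.dvd_sum fun i _ => ?_
        split_ifs with h
        · rw [sub_zero]
          exact (pow_dvd_pow _ hγ).trans (pow_dvd_pow_of_dvd ((dvd_abs _ _).2 h) _)
        · exact hu _ fun h5 => h ((dvd_abs _ _).1 h5)
      rw [Finset.sum_sub_distrib, h3] at h4
      have h5 : (p : ℤ) ^ γ ∣ ((p : ℤ) ^ (j + 1)) ^ k :=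
        (pow_dvd_pow _ hγ).trans (pow_dvd_pow_of_dvd (dvd_pow_self _ (by omega)) _)
      have h6 := (dvd_sub_right h5).1 h4
      have h7 : ∑ i, (if (p : ℤ) ∣ m i then 0 else 1 : ℤ)
          = ((Finset.univ.filter fun i => ¬ (p : ℤ) ∣ m i).card : ℤ) := by
        rw [Finset.card_filter]; push_cast
        exact Finset.sum_congr rfl fun i _ => by split_ifs <;> rfl
      rw [h7] at h6
      have h8 : p ^ γ ∣ (Finset.univ.filter fun i => ¬ (p : ℤ) ∣ m i).card := by exact_mod_cast h6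
      have h9 : (Finset.univ.filter fun i => ¬ (p : ℤ) ∣ m i).card ≤ d :=
        (Finset.card_filter_le _ _).trans (by simp)
      have h10 := Nat.eq_zero_of_dvd_of_lt h8 (by omega)
      intro i
      by_contra h11
      rw [Finset.card_eq_zero, Finset.filter_eq_empty_iff] at h10
      exact h10 (Finset.mem_univ i) h11
    refine Set.ncard_le_ncard_of_injOn (fun m i => m i / p) (fun m hm => ?_)
      (fun m hm m' hm' e => funext fun i => ?_) (S_finite hk d _)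
    · have h3 : ∑ i, |(m i : ℝ)| ^ k = ((p : ℝ) ^ (j + 1)) ^ k := hm
      change ∑ i, |((m i / p : ℤ) : ℝ)| ^ k = _
      refine mul_left_cancel₀ (pow_pos hp0 k).ne' ?_
      rw [← mul_pow, ← pow_succ', ← h3, Finset.mul_sum]
      refine Finset.sum_congr rfl fun i _ => ?_
      conv_rhs => rw [← Int.mul_ediv_cancel' (hdiv m hm i)]
      push_cast
      rw [abs_mul, mul_pow, abs_of_pos hp0]
    · rw [← Int.mul_ediv_cancel' (hdiv m hm i), ← Int.mul_ediv_cancel' (hdiv m' hm' i)]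
      exact congrArg _ (congrFun e i)
  have hall : ∀ j : ℕ, (S k d ((p : ℝ) ^ j)).ncard ≤ (S k d ((p : ℝ) ^ 0)).ncard := by
    intro j
    induction j with
    | zero => exact le_rfl
    | succ j ih => exact (step j).trans ih
  have hp1 : (1 : ℝ) < p := by exact_mod_cast hp.one_lt
  obtain ⟨j, hj⟩ := ((tendsto_pow_atTop_atTop_of_one_lt hp1).eventually_gt_atTop
    (max r0 ((S k d ((p : ℝ) ^ 0)).ncard / c))).exists
  have hne : (S k d ((p : ℝ) ^ j)).Nonempty := by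
    have := single_mem hk (show 1 ≤ d by omega) (p ^ j)
    rw [Nat.cast_pow] at this
    exact ⟨_, by exact_mod_cast this⟩
  have h3 := (H _ (pow_pos hp0 j) hne ((le_max_left _ _).trans hj.le)).1
  have h4 : ((p : ℝ) ^ j) ^ (1 : ℤ) ≤ ((p : ℝ) ^ j) ^ ((d : ℤ) - k) :=
    zpow_le_zpow_right₀ (one_le_pow₀ hp1.le) (by omega)
  rw [zpow_one] at h4
  have h5 := (le_max_right _ _).trans_lt hj
  rw [div_lt_iff₀ hc] at h5
  have h6 : ((S k d ((p : ℝ) ^ j)).ncard : ℝ) ≤ (S k d ((p : ℝ) ^ 0)).ncard := by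
    exact_mod_cast hall j
  nlinarith

theorem unit_pow_odd {p k : ℕ} (hp : p.Prime) (h : p - 1 ∣ k) (x : ℤ) (hx : ¬ (p : ℤ) ∣ x) :
    (p : ℤ) ^ (padicValNat p k + 1) ∣ x ^ k - 1 := by
  have : Fact p.Prime := ⟨hp⟩
  obtain ⟨k', hk'⟩ : p ^ padicValNat p k ∣ k := pow_padicValNat_dvd
  have h1 : (p - 1).Coprime (p ^ padicValNat p k) := by
    refine Nat.Coprime.pow_right _ ?_
    have := hp.two_le
    rw [show p = (p - 1) + 1 by omega]
    simp
  have h2 : p - 1 ∣ k' := h1.dvd_of_dvd_mul_left (hk' ▸ h)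
  obtain ⟨l, rfl⟩ := h2
  have h3 : (p : ℤ) ∣ x ^ ((p - 1) * l) - 1 := by
    rw [← ZMod.intCast_zmod_eq_zero_iff_dvd]
    push_cast
    rw [pow_mul, ZMod.pow_card_sub_one_eq_one
      fun h4 => hx ((ZMod.intCast_zmod_eq_zero_iff_dvd _ _).1 h4), one_pow, sub_self]
  have h4 := dvd_sub_pow_of_dvd_sub h3 (padicValNat p k)
  rw [one_pow, ← pow_mul, mul_comm, ← hk'] at h4
  exact h4

theorem unit_pow_two {k : ℕ} (h : Even k) (hk : k ≠ 0) (x : ℤ) (hx : ¬ ((2 : ℕ) : ℤ) ∣ x) :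
    ((2 : ℕ) : ℤ) ^ (padicValNat 2 k + 2) ∣ x ^ k - 1 := by
  obtain ⟨k', hk'⟩ : 2 ^ padicValNat 2 k ∣ k := pow_padicValNat_dvd
  have h1 : 1 ≤ padicValNat 2 k := one_le_padicValNat_of_dvd hk (even_iff_two_dvd.1 h)
  have hodd : Odd (x ^ k') := (Int.not_even_iff_odd.1 fun h2 => hx (even_iff_two_dvd.1 h2)).pow
  have key : ∀ t : ℕ, (2 : ℤ) ^ (t + 3) ∣ (x ^ k') ^ (2 ^ (t + 1)) - 1 := by
    intro t
    induction t with
    | zero => simpa using Int.eight_dvd_sq_sub_one_of_odd hodd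
    | succ t ih =>
      have h2 : (x ^ k') ^ (2 ^ (t + 1 + 1)) - 1
          = ((x ^ k') ^ (2 ^ (t + 1)) - 1) * ((x ^ k') ^ (2 ^ (t + 1)) + 1) := by
        rw [pow_succ 2 (t + 1), pow_mul]; ring
      rw [h2, show t + 1 + 3 = (t + 3) + 1 by ring, pow_succ]
      exact mul_dvd_mul ih (even_iff_two_dvd.1 (hodd.pow.add_one))
  obtain ⟨t, ht⟩ : ∃ t, padicValNat 2 k = t + 1 := ⟨padicValNat 2 k - 1, by omega⟩
  have := key t
  rw [← pow_mul, mul_comm, ← ht, ← hk'] at this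
  rw [ht]
  exact_mod_cast this

theorem main {k d : ℕ} (hk : 3 ≤ k) (hd : 1 ≤ d) (h : Holds k d) :
    k + 2 ≤ d ∧ (∀ p : ℕ, p.Prime → p - 1 ∣ k → p ^ (padicValNat p k + 1) ≤ d) ∧
      (Even k → 2 ^ (padicValNat 2 k + 2) ≤ d) := by
  have h1 : k + 2 ≤ d := by
    by_contra hc
    rcases lt_or_ge d k with h2 | h2
    · exact not_holds_lt hd h2 h
    · exact not_holds_mid hk (by omega) h
  refine ⟨h1, fun p hp hpk => ?_, fun he => ?_⟩
  · by_contra hc
    have : Fact p.Prime := ⟨hp⟩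
    refine not_holds_padic hp ?_ (by omega) (unit_pow_odd hp hpk) (by omega) (not_le.1 hc) h
    have h2 : p ^ padicValNat p k ≤ k := Nat.le_of_dvd (by omega) pow_padicValNat_dvd
    have h3 : padicValNat p k < p ^ padicValNat p k := Nat.lt_pow_self hp.one_lt
    omega
  · by_contra hc
    refine not_holds_padic Nat.prime_two ?_ (by omega) (unit_pow_two he (by omega)) (by omega)
      (not_le.1 hc) h
    have h2 : 2 ^ padicValNat 2 k ≤ k := Nat.le_of_dvd (by omega) pow_padicValNat_dvd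
    rcases le_or_gt (padicValNat 2 k) 1 with h3 | h3
    · omega
    · obtain ⟨t, ht⟩ : ∃ t, padicValNat 2 k = t + 2 := ⟨padicValNat 2 k - 2, by omega⟩
      rw [ht] at h2 ⊢
      have h4 : t < 2 ^ t := Nat.lt_two_pow_self
      rw [pow_add] at h2
      omega

end Pool.Agent.MP_927be3_nt
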